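import Mathlib

/-!
# No complete Bernstein function interpolates `(p^n + N)/(p^n + D)`

Differences `F(n+1) - F(n)` are the moments (in `s = e^{-t}`) of `b δ_1 + (1 - e^{-t}) m(t) dt`,
while for the given sequence they are the moments of an atomic measure with an atom at `1/p`.
Testing with `s (1 - (s - 1/p)^2)^k` and letting `k → ∞` gives a contradiction.
-/

open MeasureTheory Filter Topology Set Polynomial
open scoped ContDiff

namespace Pool.Agent.Results.MP_e444d1_an.NoInterpolant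

/-- Complete monotonicity on `(0, ∞)`. -/
def CompletelyMonotone (m : ℝ → ℝ) : Prop :=
  ContDiffOn ℝ ∞ m (Ioi 0) ∧ ∀ k : ℕ, ∀ t : ℝ, 0 < t → 0 ≤ (-1 : ℝ) ^ k * iteratedDeriv k m t

/-- `F` is (on `(0, ∞)`) a complete Bernstein function: `F(x) = a + b x + ∫ (1 - e^{-xt}) m(t) dt`
with `a, b ≥ 0` and a completely monotone `m` with `∫ min(1,t) m(t) dt < ∞`. -/
def IsCompleteBernstein (F : ℝ → ℝ) : Prop :=
  ∃ (a b : ℝ) (m : ℝ → ℝ), 0 ≤ a ∧ 0 ≤ b ∧ CompletelyMonotone m ∧
    IntegrableOn (fun t => min 1 t * m t) (Ioi 0) ∧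
    ∀ x : ℝ, 0 < x → F x = a + b * x + ∫ t in Ioi (0 : ℝ), (1 - Real.exp (-x * t)) * m t

/-- The integrable weight. -/
noncomputable def gg (m : ℝ → ℝ) (t : ℝ) : ℝ := (1 - Real.exp (-t)) * m t

lemma integrable_kernel {m : ℝ → ℝ} (hm0 : ∀ t, 0 < t → 0 ≤ m t)
    (hmm : ContinuousOn m (Ioi 0)) (hint : IntegrableOn (fun t => min 1 t * m t) (Ioi 0))
    {x : ℝ} (hx : 0 < x) :
    IntegrableOn (fun t => (1 - Real.exp (-x * t)) * m t) (Ioi 0) := by
  have h1 : IntegrableOn (fun t => (max 1 x) * (min 1 t * m t)) (Ioi 0) := hint.const_mul _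
  refine Integrable.mono' h1 ?_ ?_
  · apply ContinuousOn.aestronglyMeasurable _ measurableSet_Ioi
    exact (by fun_prop : Continuous fun t : ℝ => 1 - Real.exp (-x * t)).continuousOn.mul hmm
  · rw [ae_restrict_iff' measurableSet_Ioi]
    refine Eventually.of_forall (fun t ht => ?_)
    have ht' : 0 < t := ht
    have hxt : 0 < x * t := mul_pos hx ht'
    have h2 : Real.exp (-x * t) < 1 := by rw [Real.exp_lt_one_iff]; nlinarith
    have h3 : 0 < Real.exp (-x * t) := Real.exp_pos _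
    have h4 : 1 - x * t ≤ Real.exp (-x * t) := by
      have := Real.add_one_le_exp (-x * t); linarith
    rw [Real.norm_eq_abs, abs_of_nonneg (mul_nonneg (by linarith) (hm0 t ht'))]
    rw [← mul_assoc]
    apply mul_le_mul_of_nonneg_right _ (hm0 t ht')
    rcases le_total 1 t with h | h
    · rw [min_eq_left h, mul_one]
      exact le_trans (by linarith) (le_max_left _ _)
    · rw [min_eq_right h]
      calc 1 - Real.exp (-x * t) ≤ x * t := by linarith
        _ ≤ max 1 x * t := by gcongr; exact le_max_right _ _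

/-- Moment identity for polynomials. -/
lemma moment_identity {m : ℝ → ℝ} {b q r c : ℝ} (hq0 : 0 < q) (hq1 : q < 1) (hr0 : 0 ≤ r)
    (hr1 : r < 1) (hg : IntegrableOn (gg m) (Ioi 0))
    (hmom : ∀ n : ℕ, 1 ≤ n → b + ∫ t in Ioi (0 : ℝ), (Real.exp (-t)) ^ n * gg m t
      = c * ∑' k : ℕ, r ^ k * (1 - q ^ (k + 1)) * (q ^ (k + 1)) ^ n) (Q : ℝ[X]) :
    b * Q.eval 1 + ∫ t in Ioi (0 : ℝ), Real.exp (-t) * Q.eval (Real.exp (-t)) * gg m t
      = c * ∑' k : ℕ, r ^ k * (1 - q ^ (k + 1)) * (q ^ (k + 1) * Q.eval (q ^ (k + 1))) := by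
  -- integrability of all polynomials against `gg m`
  have hint : ∀ Q : ℝ[X], IntegrableOn
      (fun t => Real.exp (-t) * Q.eval (Real.exp (-t)) * gg m t) (Ioi 0) := by
    intro Q
    obtain ⟨M, hM⟩ : ∃ M, ∀ y ∈ Icc (0 : ℝ) 1, ‖y * Q.eval y‖ ≤ M :=
      isCompact_Icc.exists_bound_of_continuousOn
        ((continuous_id.mul Q.continuous).continuousOn)
    refine Integrable.bdd_mul (c := M) hg ?_ ?_
    · exact (by fun_prop : Continuous fun t : ℝ =>
        Real.exp (-t) * Q.eval (Real.exp (-t))).aestronglyMeasurable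
    · rw [ae_restrict_iff' measurableSet_Ioi]
      refine Eventually.of_forall (fun t ht => hM _ ⟨(Real.exp_pos _).le, ?_⟩)
      have ht' : 0 < t := ht
      rw [Real.exp_le_one_iff]; linarith
  have hsum : ∀ Q : ℝ[X], Summable fun k : ℕ =>
      r ^ k * (1 - q ^ (k + 1)) * (q ^ (k + 1) * Q.eval (q ^ (k + 1))) := by
    intro Q
    obtain ⟨M, hM⟩ : ∃ M, ∀ y ∈ Icc (0 : ℝ) 1, ‖y * Q.eval y‖ ≤ M :=
      isCompact_Icc.exists_bound_of_continuousOn
        ((continuous_id.mul Q.continuous).continuousOn)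
    refine Summable.of_norm_bounded ((summable_geometric_of_lt_one hr0 hr1).mul_right M)
      (fun k => ?_)
    have h1 : q ^ (k + 1) ∈ Icc (0 : ℝ) 1 := ⟨by positivity, pow_le_one₀ hq0.le hq1.le⟩
    have h2 := hM _ h1
    rw [norm_mul, norm_mul, Real.norm_of_nonneg (pow_nonneg hr0 k),
      Real.norm_of_nonneg (by linarith [h1.2] : 0 ≤ 1 - q ^ (k + 1))]
    have h3 : r ^ k * (1 - q ^ (k + 1)) ≤ r ^ k := by
      have : 0 ≤ r ^ k := pow_nonneg hr0 k
      nlinarith [h1.1]
    exact mul_le_mul h3 h2 (norm_nonneg _) (pow_nonneg hr0 k)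
  induction Q using Polynomial.induction_on' with
  | add P Q hP hQ =>
    have e1 : (fun t => Real.exp (-t) * (P + Q).eval (Real.exp (-t)) * gg m t)
        = fun t => Real.exp (-t) * P.eval (Real.exp (-t)) * gg m t
          + Real.exp (-t) * Q.eval (Real.exp (-t)) * gg m t := by
      funext t; rw [eval_add]; ring
    have e2 : (fun k : ℕ => r ^ k * (1 - q ^ (k + 1)) * (q ^ (k + 1) * (P + Q).eval (q ^ (k + 1))))
        = fun k : ℕ => r ^ k * (1 - q ^ (k + 1)) * (q ^ (k + 1) * P.eval (q ^ (k + 1)))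
          + r ^ k * (1 - q ^ (k + 1)) * (q ^ (k + 1) * Q.eval (q ^ (k + 1))) := by
      funext k; rw [eval_add]; ring
    rw [e1, e2, integral_add (hint P) (hint Q), (hsum P).tsum_add (hsum Q), eval_add]
    linear_combination hP + hQ
  | monomial n a =>
    have e1 : (fun t => Real.exp (-t) * (monomial n a).eval (Real.exp (-t)) * gg m t)
        = fun t => a * ((Real.exp (-t)) ^ (n + 1) * gg m t) := by
      funext t; rw [eval_monomial]; ring
    have e2 : (fun k : ℕ => r ^ k * (1 - q ^ (k + 1)) *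
        (q ^ (k + 1) * (monomial n a).eval (q ^ (k + 1))))
        = fun k : ℕ => a * (r ^ k * (1 - q ^ (k + 1)) * (q ^ (k + 1)) ^ (n + 1)) := by
      funext k; rw [eval_monomial]; ring
    rw [e1, e2, integral_const_mul, tsum_mul_left, eval_monomial]
    have := hmom (n + 1) (by omega)
    simp only [one_pow, mul_one]
    linear_combination a * this

/-- The expansion of the sequence. -/
lemma seq_diff {p N D : ℝ} (hp : 1 < p) (hD1 : -1 < D) (hD : D ≤ 0) (n : ℕ) (hn : 1 ≤ n) :
    (p ^ (n + 1) + N) / (p ^ (n + 1) + D) - (p ^ n + N) / (p ^ n + D)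
      = (D - N) * ∑' k : ℕ, (-D) ^ k * (1 - (1 / p) ^ (k + 1)) * ((1 / p) ^ (k + 1)) ^ n := by
  have hp0 : 0 < p := by linarith
  have hq0 : 0 < 1 / p := by positivity
  have hq1 : 1 / p < 1 := by rw [div_lt_one hp0]; exact hp
  set q := 1 / p with hq
  have hpq : ∀ j : ℕ, p ^ j * q ^ j = 1 := by
    intro j; rw [← mul_pow, hq, mul_one_div_cancel hp0.ne', one_pow]
  have key : ∀ j : ℕ, 1 ≤ j →
      HasSum (fun k : ℕ => (-D) ^ k * (q ^ (k + 1)) ^ j) (1 / (p ^ j + D)) := by
    intro j hj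
    have h1 : 0 ≤ -D * q ^ j := mul_nonneg (by linarith) (by positivity)
    have h2 : -D * q ^ j < 1 := by
      have : q ^ j ≤ 1 := pow_le_one₀ hq0.le hq1.le
      have h3 : 0 < q ^ j := by positivity
      nlinarith
    have h3 := (hasSum_geometric_of_lt_one h1 h2).mul_left (q ^ j)
    have e1 : (fun k : ℕ => q ^ j * (-D * q ^ j) ^ k) = fun k : ℕ => (-D) ^ k * (q ^ (k + 1)) ^ j := by
      funext k
      rw [mul_pow, ← pow_mul, ← pow_mul, ← mul_assoc, mul_comm (q ^ j), mul_assoc, ← pow_add]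
      congr 2
      ring
    have e2 : q ^ j * (1 - -D * q ^ j)⁻¹ = 1 / (p ^ j + D) := by
      have h4 : 0 < 1 - -D * q ^ j := by linarith
      have h5 : p ^ j + D = p ^ j * (1 - -D * q ^ j) := by
        have := hpq j; linear_combination (-D) * this
      have h6 : 0 < p ^ j := by positivity
      rw [h5]
      have := hpq j
      rw [← div_eq_mul_inv, div_eq_div_iff h4.ne' (by positivity)]
      linear_combination (1 - -D * q ^ j) * this
    rw [e1, e2] at h3
    exact h3
  have h1 := key n hn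
  have h2 := key (n + 1) (by omega)
  have h3 := (h1.sub h2).tsum_eq
  have e : (fun k : ℕ => (-D) ^ k * (1 - q ^ (k + 1)) * (q ^ (k + 1)) ^ n)
      = fun k : ℕ => (-D) ^ k * (q ^ (k + 1)) ^ n - (-D) ^ k * (q ^ (k + 1)) ^ (n + 1) := by
    funext k; ring
  rw [e, h3]
  have hpn : ∀ j : ℕ, 0 < p ^ j + D := by
    intro j
    have : 1 ≤ p ^ j := one_le_pow₀ hp.le
    linarith
  have h4 := hpn n
  have h5 := hpn (n + 1)
  field_simp
  ring

/-- **Answer to Q1: no triple.**  For all `p > 1` and `-1 < N < D ≤ 0` there is no complete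
Bernstein function `F` with `F(n) = (p^n + N)/(p^n + D)` for all integers `n ≥ 1`
(whatever the value at `0+`). -/
theorem result : ∀ p N D : ℝ, 1 < p → -1 < N → N < D → D ≤ 0 →
    ¬ ∃ F : ℝ → ℝ, IsCompleteBernstein F ∧
      ∀ n : ℕ, 1 ≤ n → F n = (p ^ n + N) / (p ^ n + D) := by
  rintro p N D hp hN hND hD ⟨F, ⟨a, b, m, ha, hb, ⟨hsm, hcm⟩, hint, hF⟩, hFn⟩
  have hp0 : 0 < p := by linarith
  set q := 1 / p with hq
  have hq0 : 0 < q := by positivity
  have hq1 : q < 1 := by rw [hq, div_lt_one hp0]; exact hp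
  have hm0 : ∀ t, 0 < t → 0 ≤ m t := by
    intro t ht
    have := hcm 0 t ht
    simpa using this
  have hmc : ContinuousOn m (Ioi 0) := hsm.continuousOn
  have hg : IntegrableOn (gg m) (Ioi 0) := by
    have h1 := integrable_kernel hm0 hmc hint one_pos
    have e : gg m = fun t => (1 - Real.exp (-1 * t)) * m t := by
      funext t; simp [gg]
    rw [e]; exact h1
  -- the moments
  have hmom : ∀ n : ℕ, 1 ≤ n → b + ∫ t in Ioi (0 : ℝ), (Real.exp (-t)) ^ n * gg m t
      = (D - N) * ∑' k : ℕ, (-D) ^ k * (1 - q ^ (k + 1)) * (q ^ (k + 1)) ^ n := by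
    intro n hn
    rw [hq, ← seq_diff hp (by linarith) hD n hn, ← hFn n hn, ← hFn (n + 1) (by omega)]
    have hn0 : (0 : ℝ) < n := by exact_mod_cast hn
    rw [hF n hn0, hF ((n + 1 : ℕ) : ℝ) (by positivity)]
    have i1 := integrable_kernel hm0 hmc hint hn0
    have i2 := integrable_kernel hm0 hmc hint (x := ((n + 1 : ℕ) : ℝ)) (by positivity)
    have e : (fun t => (Real.exp (-t)) ^ n * gg m t)
        = fun t => (1 - Real.exp (-((n + 1 : ℕ) : ℝ) * t)) * m t
          - (1 - Real.exp (-(n : ℝ) * t)) * m t := by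
      funext t
      unfold gg
      have e1 : Real.exp (-(n : ℝ) * t) = (Real.exp (-t)) ^ n := by
        rw [← Real.exp_nat_mul]; ring_nf
      have e2 : Real.exp (-((n + 1 : ℕ) : ℝ) * t) = (Real.exp (-t)) ^ (n + 1) := by
        rw [← Real.exp_nat_mul]; ring_nf
      rw [e1, e2]; ring
    rw [e, integral_sub i2 i1]
    push_cast
    ring
  -- test polynomials
  set Q : ℕ → ℝ[X] := fun k => (1 - (X - C q) ^ 2) ^ k with hQ
  have hQe : ∀ k y, (Q k).eval y = (1 - (y - q) ^ 2) ^ k := by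
    intro k y; simp [hQ]
  have hy1 : ∀ y ∈ Icc (0 : ℝ) 1, 0 ≤ 1 - (y - q) ^ 2 ∧ 1 - (y - q) ^ 2 ≤ 1 := by
    intro y hy
    constructor
    · nlinarith [hy.1, hy.2, mul_nonneg hy.1 hq0.le]
    · nlinarith [sq_nonneg (y - q)]
  have hid := fun k => moment_identity (c := D - N) hq0 hq1 (by linarith : (0 : ℝ) ≤ -D)
    (by linarith : -D < 1) hg hmom (Q k)
  -- the right side is bounded below
  have hlow : ∀ k, (D - N) * ((1 - q) * q) ≤
      (D - N) * ∑' j : ℕ, (-D) ^ j * (1 - q ^ (j + 1)) * (q ^ (j + 1) * (Q k).eval (q ^ (j + 1))) := by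
    intro k
    apply mul_le_mul_of_nonneg_left _ (by linarith)
    have hterm : ∀ j : ℕ, 0 ≤ (-D) ^ j * (1 - q ^ (j + 1)) *
        (q ^ (j + 1) * (Q k).eval (q ^ (j + 1))) := by
      intro j
      have h1 : q ^ (j + 1) ∈ Icc (0 : ℝ) 1 := ⟨by positivity, pow_le_one₀ hq0.le hq1.le⟩
      rw [hQe]
      have h2 := (hy1 _ h1).1
      have h3 : 0 ≤ (-D) ^ j := pow_nonneg (by linarith) j
      have h4 : 0 ≤ 1 - q ^ (j + 1) := by linarith [h1.2]
      positivity
    have hs : Summable fun j : ℕ => (-D) ^ j * (1 - q ^ (j + 1)) *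
        (q ^ (j + 1) * (Q k).eval (q ^ (j + 1))) := by
      refine Summable.of_nonneg_of_le hterm (fun j => ?_)
        (summable_geometric_of_lt_one (by linarith : (0 : ℝ) ≤ -D) (by linarith : -D < 1))
      have h1 : q ^ (j + 1) ∈ Icc (0 : ℝ) 1 := ⟨by positivity, pow_le_one₀ hq0.le hq1.le⟩
      rw [hQe]
      have h2 := hy1 _ h1
      have h3 : 0 ≤ (-D) ^ j := pow_nonneg (by linarith) j
      have h5 : (1 - (q ^ (j + 1) - q) ^ 2) ^ k ≤ 1 := pow_le_one₀ h2.1 h2.2
      have h6 : 0 ≤ (1 - (q ^ (j + 1) - q) ^ 2) ^ k := pow_nonneg h2.1 k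
      calc (-D) ^ j * (1 - q ^ (j + 1)) * (q ^ (j + 1) * (1 - (q ^ (j + 1) - q) ^ 2) ^ k)
          ≤ (-D) ^ j * 1 * (1 * 1) := by
            apply mul_le_mul
            · exact mul_le_mul_of_nonneg_left (by linarith [h1.1]) h3
            · exact mul_le_mul h1.2 h5 h6 zero_le_one
            · exact mul_nonneg h1.1 h6
            · linarith
        _ = (-D) ^ j := by ring
    have h0 := hs.le_tsum 0 (fun j _ => hterm j)
    have e0 : (-D) ^ 0 * (1 - q ^ (0 + 1)) * (q ^ (0 + 1) * (Q k).eval (q ^ (0 + 1)))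
        = (1 - q) * q := by
      rw [hQe]; simp
    rw [e0] at h0
    exact h0
  -- the left side tends to zero
  have hlim1 : Tendsto (fun k => b * (Q k).eval 1) atTop (𝓝 0) := by
    have h1 : Tendsto (fun k => (1 - (1 - q) ^ 2) ^ k) atTop (𝓝 0) :=
      tendsto_pow_atTop_nhds_zero_of_lt_one (by nlinarith) (by nlinarith)
    have := h1.const_mul b
    simpa only [hQe, mul_zero] using this
  have hlim2 : Tendsto (fun k => ∫ t in Ioi (0 : ℝ),
      Real.exp (-t) * (Q k).eval (Real.exp (-t)) * gg m t) atTop (𝓝 0) := by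
    have h0 : ∫ t in Ioi (0 : ℝ), (0 : ℝ) = 0 := by simp
    conv_rhs => rw [← h0]
    refine tendsto_integral_of_dominated_convergence (fun t => |gg m t|) ?_ hg.abs ?_ ?_
    · intro k
      exact ((by fun_prop : Continuous fun t : ℝ =>
        Real.exp (-t) * (Q k).eval (Real.exp (-t))).aestronglyMeasurable).mul hg.1
    · intro k
      rw [ae_restrict_iff' measurableSet_Ioi]
      refine Eventually.of_forall (fun t ht => ?_)
      have ht' : 0 < t := ht
      have h1 : Real.exp (-t) ∈ Icc (0 : ℝ) 1 :=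
        ⟨(Real.exp_pos _).le, by rw [Real.exp_le_one_iff]; linarith⟩
      rw [hQe, Real.norm_eq_abs, abs_mul]
      have h2 := hy1 _ h1
      have h3 : |Real.exp (-t) * (1 - (Real.exp (-t) - q) ^ 2) ^ k| ≤ 1 := by
        rw [abs_of_nonneg (mul_nonneg h1.1 (pow_nonneg h2.1 k))]
        calc Real.exp (-t) * (1 - (Real.exp (-t) - q) ^ 2) ^ k ≤ 1 * 1 :=
              mul_le_mul h1.2 (pow_le_one₀ h2.1 h2.2) (pow_nonneg h2.1 k) zero_le_one
          _ = 1 := one_mul 1
      calc |Real.exp (-t) * (1 - (Real.exp (-t) - q) ^ 2) ^ k| * |gg m t| ≤ 1 * |gg m t| :=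
            mul_le_mul_of_nonneg_right h3 (abs_nonneg _)
        _ = |gg m t| := one_mul _
    · -- almost everywhere `e^{-t} ≠ q`
      have hne : ∀ᵐ t : ℝ ∂(volume.restrict (Ioi 0)), t ≠ Real.log p := by
        apply ae_restrict_of_ae
        rw [ae_iff]
        simp
      rw [ae_restrict_iff' measurableSet_Ioi] at hne ⊢
      filter_upwards [hne] with t ht ht0
      have hne' := ht ht0
      have ht' : 0 < t := ht0
      have h1 : Real.exp (-t) ∈ Icc (0 : ℝ) 1 :=
        ⟨(Real.exp_pos _).le, by rw [Real.exp_le_one_iff]; linarith⟩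
      have hneq : Real.exp (-t) ≠ q := by
        intro he
        apply hne'
        rw [hq, one_div, ← Real.exp_log hp0, ← Real.exp_neg] at he
        have := Real.exp_injective he
        linarith
      have h2 := hy1 _ h1
      have h3 : 1 - (Real.exp (-t) - q) ^ 2 < 1 := by
        have : 0 < (Real.exp (-t) - q) ^ 2 := by
          have := sub_ne_zero.mpr hneq
          positivity
        linarith
      have h4 := tendsto_pow_atTop_nhds_zero_of_lt_one h2.1 h3
      have h5 := (h4.const_mul (Real.exp (-t))).mul_const (gg m t)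
      simpa only [hQe, mul_zero, zero_mul] using h5
  have hlim := hlim1.add hlim2
  rw [add_zero] at hlim
  have hpos : 0 < (D - N) * ((1 - q) * q) := by
    have : 0 < D - N := by linarith
    have : 0 < 1 - q := by linarith
    positivity
  have hge : (D - N) * ((1 - q) * q) ≤ 0 := by
    refine ge_of_tendsto' hlim (fun k => ?_)
    rw [hid k]; exact hlow k
  linarith

end Pool.Agent.Results.MP_e444d1_an.NoInterpolant
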